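import Pool.Agent.P8H31.RG.Weight

/-!
# MP_397c7d_co, Q1: no nontrivial lattice identity holds in all `R(G)`, `G` a finite graph

If a lattice identity `s = t` holds in the lattice `R(G)` of the regular closed families of connected
vertex sets for every finite graph `G`, then it holds in every lattice. (The answer to Q1 is no.)

Definitions, in `Pool.Agent.P8H31.RG.Defs`: `So G` is `so(G)`, `cl` and `int` are the closure and the
interior operator, `R G` is the set of the families `a` with `a = cl (int a)`, and `R.lattice G` is the
lattice structure of `R G` ordered by inclusion. `LTerm` (starting files) are the lattice terms in the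
variables `var 0, var 1, …`, and `LTerm.eval F s` is the value of `s` if `var i` has the value `F i`.

## Proof

We show that for every finite strict ordering `e` with a least and a greatest element the lattice
`Reg(e)` (the extended permutohedron: regular closed sets of pairs, for the transitive closure) is a
sublattice of some `R(G)`. These lattices satisfy no nontrivial identity by the starting file
`Pool.Agent.R645.RegTree`.

The vertices of `G` are the up-sets of the poset which contain the greatest but not the least
element; two of them are adjacent if they differ by one element. For `a < b` let `X a b` be the set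
of the up-sets containing `b` but not `a`. These sets are connected (`Bdd.conn`), and a disjoint
union of two of them is connected only if the pairs can be composed, `X a b ∪ X b c = X a c`
(`Bdd.comp`, `Bdd.join`). Let `F c` be the set of the up-sets containing `c`, and let `φ` be an
injective `ℚ`-linear map from the quotient of `ℚ ^ V` by the span of the indicator functions of the
`F c` to the real numbers. This gives an additive weight of sets of vertices, and the connected
sets of weight zero are exactly the `X a b` (`Bdd.exists_sys`, `Bdd.ker_comb`): the elements with
nonzero coefficients in a linear combination of the `F c` with values `0`, `1` are a chain, the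
coefficients are alternately `1` and `-1`, and so the set is the union of some `X a b` with gaps
between them, between which there are no edges. Now we assign to a set `A` of pairs the family of
all connected sets with positive weight and of all `X a b`, `(a, b) ∈ A`. In every partition of a set
of weight zero there are parts of positive and of negative weight, or all parts have weight zero. So
this map commutes with the closure and the interior operators (`Sys.cl_lift`, `Sys.int_lift`).
-/

set_option autoImplicit false

namespace Pool.Agent.Results.MP_397c7d_co.NoIdentityRG

open Pool.Agent.R645.RegTree (LTerm)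
open Pool.Agent.P8H31.RG (R R.lattice)

universe u

theorem bdd_el {K : Type u} [Lattice K] (v : ℕ → K) (p q : LTerm) :
    Pool.Agent.P8H31.RG.Bdd (Pool.Agent.R645.RegTree.ee v p q)
      (Pool.Agent.R645.RegTree.W v p q [] trivial) (Pool.Agent.R645.RegTree.Z v p q [] trivial) where
  irr := (Pool.Agent.R645.RegTree.ee_strict v).1
  tr := (Pool.Agent.R645.RegTree.ee_strict v).2
  bot := by
    rintro ⟨⟨b, π⟩, hπ⟩ hne
    show Pool.Agent.R645.RegTree.lt (false, []) (b, π)
    cases b
    · refine ⟨List.nil_suffix, ?_⟩
      rcases π with _ | ⟨m, π⟩
      · exact absurd rfl hne
      · simp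
    · exact Or.inl List.nil_suffix
  top := by
    rintro ⟨⟨b, π⟩, hπ⟩ hne
    show Pool.Agent.R645.RegTree.lt (b, π) (true, [])
    cases b
    · exact Or.inr List.nil_suffix
    · refine ⟨List.nil_suffix, ?_⟩
      rcases π with _ | ⟨m, π⟩
      · exact absurd rfl hne
      · simp

/-- An identity which holds in all `R(G)` cannot fail in a lattice. -/
theorem core (s t : LTerm)
    (h : ∀ (V : Type) [Finite V] (G : SimpleGraph V) (F : ℕ → R G),
      @LTerm.eval (R G) (R.lattice G) F s = @LTerm.eval (R G) (R.lattice G) F t)
    {K : Type u} [Lattice K] (v : ℕ → K) (p q : LTerm) (hpq : ¬ p.eval v ≤ q.eval v) :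
    (Pool.Agent.R645.RegTree.VV v p q s) = (Pool.Agent.R645.RegTree.VV v p q t) ∧
      Pool.Agent.R645.RegTree.VV v p q p ≠ Pool.Agent.R645.RegTree.VV v p q q := by
  refine ⟨?_, Pool.Agent.R645.RegTree.fails v hpq⟩
  have := Pool.Agent.R645.RegTree.el_finite (p := p) (q := q) v
  obtain ⟨φ, hφ⟩ := (bdd_el v p q).exists_sys
  have h1 := h _ _ fun i => hφ.emb (Pool.Agent.R645.RegTree.FF v p q i)
  rw [hφ.eval_emb, hφ.eval_emb] at h1
  exact hφ.emb_injective h1

/-- **Theorem.** If the lattice identity `s = t` holds in the lattice `R(G)` for every finite graph
`G`, then it holds in every lattice. -/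
theorem result (s t : LTerm)
    (h : ∀ (V : Type) [Finite V] (G : SimpleGraph V) (F : ℕ → R G),
      @LTerm.eval (R G) (R.lattice G) F s = @LTerm.eval (R G) (R.lattice G) F t) :
    ∀ (K : Type u) [Lattice K] (v : ℕ → K), s.eval v = t.eval v := by
  intro K _ v
  by_contra hne
  by_cases h1 : s.eval v ≤ t.eval v
  · have h2 : ¬ t.eval v ≤ s.eval v := fun h2 => hne (le_antisymm h1 h2)
    obtain ⟨h3, h4⟩ := core s t h v t s h2
    exact h4 h3.symm
  · obtain ⟨h3, h4⟩ := core s t h v s t h1
    exact h4 h3

end Pool.Agent.Results.MP_397c7d_co.NoIdentityRG
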